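import Pool.Agent.H780.RG.StmC
import Pool.Agent.H780.RG.SPC
import Pool.Graph.R_pool_sql_team_seeded_63374d34.Results.MP_b75b84_gt.RoundOutsideBall

/-!
# Project RP (helper780): metrics on real projective space which are round outside a ball
-/

set_option autoImplicit false

open MeasureTheory Metric Set Filter Topology InnerProductGeometry

namespace Pool.Agent.H780.RP

open Pool.Agent.H241R3.FV Pool.Agent.N526.CP Pool.Agent.H780.RG
open Pool.Agent.Results.MP_b75b84_gt.RoundOutsideBall (capPt sdist Cone capPt_norm arc_mem)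

/-- the ball as a convex region -/
theorem creg_ball {n : ℕ} {s : ℝ} (h0 : 0 < s) (h1 : s < 1) : CReg (fun y : E n => s • y) := by
  obtain ⟨c1, c2, c3, c4, c5, c6, -⟩ := SPC.main n
  have e1 : (fun y : E n => s • y) '' closedBall 0 1 = closedBall 0 s := by
    rw [image_smul, smul_unitClosedBall_of_nonneg h0.le]
  have e2 : (fun y : E n => s • y) '' ball 0 1 = ball 0 s := by
    rw [image_smul, smul_unitBall_of_pos h0]
  refine ⟨by fun_prop, fun y hy => ?_, fun x _ y _ h => ?_, ?_, ?_⟩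
  · rw [mem_closedBall_zero_iff] at hy
    rw [norm_smul, Real.norm_of_nonneg h0.le]
    nlinarith [norm_nonneg y]
  · exact smul_right_injective _ h0.ne' h
  · rw [e1, e2, interior_closedBall _ h0.ne']
  · rw [e1]
    have e3 : gn '' closedBall (0 : E n) s = closedBall 0 ((√(1 - s ^ 2))⁻¹ * s) := by
      have hs2 : 0 < 1 - s ^ 2 := by nlinarith
      have key : ∀ X : E n, ‖X‖ < 1 → (‖X‖ ≤ s ↔ ‖gn X‖ ≤ (√(1 - s ^ 2))⁻¹ * s) := by
        intro X hX
        have hX2 : 0 < 1 - ‖X‖ ^ 2 := by nlinarith [norm_nonneg X]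
        have e4 : ‖gn X‖ = (√(1 - ‖X‖ ^ 2))⁻¹ * ‖X‖ := by
          unfold gn
          rw [norm_smul, Real.norm_of_nonneg (by positivity)]
        rw [e4]
        have m1 : ∀ a b : ℝ, 0 ≤ a → a ≤ b → b < 1 →
            (√(1 - a ^ 2))⁻¹ * a ≤ (√(1 - b ^ 2))⁻¹ * b := by
          intro a b ha hab hb
          have hb2 : 0 < 1 - b ^ 2 := by nlinarith
          have h5 : √(1 - b ^ 2) ≤ √(1 - a ^ 2) := Real.sqrt_le_sqrt (by nlinarith)
          have h6 : 0 < √(1 - b ^ 2) := Real.sqrt_pos.2 hb2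
          have h7 : (√(1 - a ^ 2))⁻¹ ≤ (√(1 - b ^ 2))⁻¹ := inv_anti₀ h6 h5
          exact mul_le_mul h7 hab ha (by positivity)
        have m2 : ∀ a b : ℝ, 0 ≤ a → a < b → b < 1 →
            (√(1 - a ^ 2))⁻¹ * a < (√(1 - b ^ 2))⁻¹ * b := by
          intro a b ha hab hb
          have hb2 : 0 < 1 - b ^ 2 := by nlinarith
          have h5 : √(1 - b ^ 2) ≤ √(1 - a ^ 2) := Real.sqrt_le_sqrt (by nlinarith)
          have h6 : 0 < √(1 - b ^ 2) := Real.sqrt_pos.2 hb2
          have h7 : (√(1 - a ^ 2))⁻¹ ≤ (√(1 - b ^ 2))⁻¹ := inv_anti₀ h6 h5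
          calc (√(1 - a ^ 2))⁻¹ * a ≤ (√(1 - b ^ 2))⁻¹ * a := mul_le_mul_of_nonneg_right h7 ha
            _ < (√(1 - b ^ 2))⁻¹ * b := mul_lt_mul_of_pos_left hab (by positivity)
        constructor
        · intro h
          exact m1 _ _ (norm_nonneg X) h h1
        · intro h
          by_contra hc
          exact absurd h (not_le.2 (m2 _ _ h0.le (not_le.1 hc) hX))
      ext Y
      constructor
      · rintro ⟨X, hX, rfl⟩
        rw [mem_closedBall_zero_iff] at hX ⊢
        exact (key X (hX.trans_lt h1)).1 hX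
      · intro hY
        rw [mem_closedBall_zero_iff] at hY
        refine ⟨ig Y, ?_, (c5 Y).2⟩
        rw [mem_closedBall_zero_iff]
        refine (key _ (c5 Y).1).2 ?_
        rw [(c5 Y).2]
        exact hY
    rw [e3]
    exact convex_closedBall _ _

theorem hdist_cap {d : ℕ} {ρ : ℝ} (h0 : 0 < ρ) (h1 : ρ < Real.pi / 2) (x y : Sph (d + 1)) :
    hdist (Real.sin ρ • (x : E (d + 1))) (Real.sin ρ • (y : E (d + 1))) = capDist ρ x y := by
  have hc : 0 ≤ Real.cos ρ := (Real.cos_pos_of_mem_Ioo ⟨by linarith, h1⟩).le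
  have hs : 0 ≤ Real.sin ρ := (Real.sin_pos_of_pos_of_lt_pi h0 (by linarith [Real.pi_pos])).le
  have h2 := Real.sin_sq_add_cos_sq ρ
  have e : ∀ z : Sph (d + 1), √(1 - ‖Real.sin ρ • (z : E (d + 1))‖ ^ 2) = Real.cos ρ := by
    intro z
    rw [norm_smul, norm_sph, mul_one, Real.norm_of_nonneg hs,
      show 1 - Real.sin ρ ^ 2 = Real.cos ρ ^ 2 by linarith, Real.sqrt_sq hc]
  unfold hdist capDist
  rw [e, e, real_inner_smul_left, real_inner_smul_right]
  congr 1
  ring

/-- A closed manifold, given by a double cover `X` (a metric space) with the deck transformation `τ`,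
which is round outside `K`: the band, i.e. the unit sphere without the open balls of radius `ρ` around
the two poles, is mapped to `X` such that the shortest arcs of great circles in the band do not become
longer and `τ` corresponds to the antipodal map; and `K` is mapped to `X` without increasing distances,
so that its boundary is the boundary of one of the two balls. -/
structure RoundOutside {d : ℕ} {K : Type} [MetricSpace K] (bd : Sph (d + 1) → K) (ρ : ℝ)
    (X : Type) [MetricSpace X] (τ : X → X) where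
  /-- the embedding of the band -/
  band : E (d + 1) × ℝ → X
  /-- the embedding of `K` -/
  inn : K → X
  band_dist : ∀ p q : E (d + 1) × ℝ, ‖p.1‖ ^ 2 + p.2 ^ 2 = 1 → ‖q.1‖ ^ 2 + q.2 ^ 2 = 1 →
    (∀ t ∈ Icc (0 : ℝ) 1, (1 - t) • p + t • q ∈ Cone d ρ) → dist (band p) (band q) ≤ sdist p q
  antipode : ∀ p ∈ Cone d ρ, ‖p.1‖ ^ 2 + p.2 ^ 2 = 1 → τ (band p) = band (-p)
  inn_dist : ∀ a b : K, dist (inn a) (inn b) ≤ dist a b
  glue : ∀ x : Sph (d + 1), inn (bd x) = band (capPt ρ x)

theorem cap_le {d : ℕ} {K : Type} [MetricSpace K] {bd : Sph (d + 1) → K} {ρ : ℝ} (h0 : 0 < ρ)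
    (h1 : ρ < Real.pi / 2) {X : Type} [MetricSpace X] {τ : X → X} (N : RoundOutside bd ρ X τ)
    (hsys : ∀ p : X, Real.pi ≤ dist p (τ p)) (x y : Sph (d + 1)) :
    capDist ρ x y ≤ dist (bd x) (bd y) := by
  have hmem : capPt ρ x ∈ Cone d ρ := by
    have hc : 0 ≤ Real.cos ρ := (Real.cos_pos_of_mem_Ioo ⟨by linarith, h1⟩).le
    show |(capPt ρ x).2| ≤ Real.cos ρ * √(‖(capPt ρ x).1‖ ^ 2 + (capPt ρ x).2 ^ 2)
    rw [capPt_norm, Real.sqrt_one, mul_one]
    show |Real.cos ρ| ≤ Real.cos ρ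
    rw [abs_of_nonneg hc]
  have h2 := hsys (N.band (capPt ρ x))
  rw [N.antipode _ hmem (capPt_norm ρ x), ← N.glue x] at h2
  have h3 : dist (N.band (capPt ρ y)) (N.band (-capPt ρ x)) ≤ sdist (capPt ρ y) (-capPt ρ x) := by
    refine N.band_dist _ _ (capPt_norm ρ y) ?_ fun t ht => arc_mem h0 h1 x y ht
    show ‖-(capPt ρ x).1‖ ^ 2 + (-(capPt ρ x).2) ^ 2 = 1
    rw [norm_neg, neg_sq]
    exact capPt_norm ρ x
  have h4 : sdist (capPt ρ y) (-capPt ρ x) = Real.pi - capDist ρ x y := by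
    unfold capDist
    rw [← Real.arccos_neg]
    show Real.arccos (inner ℝ (Real.sin ρ • (y : E (d + 1))) (-(Real.sin ρ • (x : E (d + 1)))) +
      Real.cos ρ * (-Real.cos ρ)) = _
    rw [inner_neg_right, real_inner_smul_left, real_inner_smul_right,
      real_inner_comm (x : E (d + 1)) (y : E (d + 1))]
    congr 1
    ring
  have h5 : dist (N.inn (bd x)) (N.band (-capPt ρ x)) ≤
      dist (N.inn (bd x)) (N.inn (bd y)) + dist (N.inn (bd y)) (N.band (-capPt ρ x)) :=
    dist_triangle _ _ _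
  have h6 := N.inn_dist (bd x) (bd y)
  rw [N.glue y] at h5 h6
  rw [h4] at h3
  linarith

end Pool.Agent.H780.RP
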