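import Pool.Agent.H780.RP.Base
import Pool.Graph.R_pool_sql_team_seeded_3997aac3.Q183.CN.K

/-!
# Project RP: volumes
-/

set_option autoImplicit false

open MeasureTheory Metric Set Filter Topology InnerProductGeometry

namespace Pool.Agent.H780.RP

open Pool.Agent.H241R3.FV Pool.Agent.N526.CP Pool.Agent.H780.RG

/-- The volume of the round cap of radius `ρ` of `S^(d+1)`. -/
noncomputable def capVol (d : ℕ) (ρ : ℝ) : ENNReal :=
  ENNReal.ofReal ((sig (d + 1)).real univ * ∫ t in (0 : ℝ)..ρ, Real.sin t ^ d)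

/-- The volume of the round collar `{ρ ≤ r ≤ π/2}` of the boundary of the hemisphere. -/
noncomputable def collarVol (d : ℕ) (ρ : ℝ) : ENNReal :=
  ENNReal.ofReal ((sig (d + 1)).real univ * ∫ t in ρ..(Real.pi / 2), Real.sin t ^ d)

theorem ball_vol (d : ℕ) {ρ : ℝ} (h0 : 0 < ρ) (h1 : ρ < Real.pi / 2) :
    ENNReal.ofReal (∫ x in ball (0 : E (d + 1)) (Real.sin ρ), (√(1 - ‖x‖ ^ 2))⁻¹) =
      capVol d ρ := by
  have h2 := Pool.Agent.Q183.CN.ball_lf d h0 h1
  have h3 : ∫⁻ p in ball (0 : E (d + 1)) (Real.sin ρ), ENNReal.ofReal (√(1 - ‖p‖ ^ 2))⁻¹ =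
      ENNReal.ofReal ((d + 1 : ℕ) * om (d + 1) * ∫ t in (0 : ℝ)..ρ, Real.sin t ^ d) := h2
  rw [integral_eq_lintegral_of_nonneg_ae]
  · rw [ENNReal.ofReal_toReal (by rw [h3]; exact ENNReal.ofReal_ne_top), h3]
    unfold capVol
    rw [TConst.sig_univ (d + 1) (by omega)]
  · exact Eventually.of_forall fun x => by positivity
  · have h2 : Measurable fun x : E (d + 1) => (√(1 - ‖x‖ ^ 2))⁻¹ := by fun_prop
    exact h2.aestronglyMeasurable

theorem cap_add_collar (d : ℕ) {ρ : ℝ} (h0 : 0 < ρ) (h1 : ρ < Real.pi / 2) :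
    (volume : Measure (E (d + 2))).toSphere univ / 2 = capVol d ρ + collarVol d ρ := by
  rw [HEM.vol_half]
  have hc : Continuous fun t : ℝ => Real.sin t ^ d := by fun_prop
  have p1 : 0 ≤ ∫ t in (0 : ℝ)..ρ, Real.sin t ^ d :=
    intervalIntegral.integral_nonneg h0.le fun t ht =>
      pow_nonneg (Real.sin_nonneg_of_nonneg_of_le_pi ht.1 (by linarith [ht.2, Real.pi_pos])) _
  have p2 : 0 ≤ ∫ t in ρ..(Real.pi / 2), Real.sin t ^ d :=
    intervalIntegral.integral_nonneg h1.le fun t ht =>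
      pow_nonneg (Real.sin_nonneg_of_nonneg_of_le_pi (by linarith [ht.1])
        (by linarith [ht.2, Real.pi_pos])) _
  unfold capVol collarVol
  rw [← intervalIntegral.integral_add_adjacent_intervals (hc.intervalIntegrable 0 ρ)
    (hc.intervalIntegrable ρ (Real.pi / 2)), mul_add,
    ENNReal.ofReal_add (mul_nonneg measureReal_nonneg p1) (mul_nonneg measureReal_nonneg p2)]

end Pool.Agent.H780.RP
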